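import Pool.Agent.Y294.TB.Stm

/-!
From the charts to the theorem on negligible sets (project TB).
-/

set_option autoImplicit false

open MeasureTheory Set Filter Topology
open scoped InnerProductSpace
open Pool.Agent.H721R2.Quart Pool.Agent.H721R2.Ivrii

namespace Pool.Agent.Y288.TB

open Pool.Agent.TH746 Pool.Agent.TH746.AL Pool.Agent.TH746.UM MvPolynomial H450Al H450Sp
open Pool.Agent.Y294.TB

/-- a countable field over which the algebraic pieces of the boundary and the symmetry are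
defined -/
theorem exists_field' (Ω : Set (EE 0)) (g : EE 0 ≃ᵃⁱ[ℝ] EE 0) :
    ∃ k : Subfield ℝ, Countable k ∧ (∀ j, (g 0).ofLp j ∈ k) ∧
      (∀ i j, (g.linearIsometryEquiv (EuclideanSpace.single i 1)).ofLp j ∈ k) ∧
      ∀ q, AlgAt Ω q → ∃ (B : Set (EE 0)) (P : MvPolynomial (Fin 2) k), IsOpen B ∧ q ∈ B ∧
        NC (map (algebraMap k ℝ) P) ∧ ∀ y ∈ B, y ∈ frontier Ω → aeval y.ofLp P = 0 := by
  classical
  set 𝓑 := TopologicalSpace.countableBasis (EE 0) with h𝓑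
  have hcount : Countable {B : Set (EE 0) // B ∈ 𝓑 ∧ ∃ P, Fit Ω P B} := by
    have h1 : Countable 𝓑 := (TopologicalSpace.countable_countableBasis (EE 0)).to_subtype
    exact Function.Injective.countable (f := fun B : {B : Set (EE 0) // B ∈ 𝓑 ∧ ∃ P, Fit Ω P B} =>
      (⟨B.1, B.2.1⟩ : 𝓑)) (fun a b hab => Subtype.ext (congrArg (fun z : 𝓑 => z.1) hab))
  set ι := {B : Set (EE 0) // B ∈ 𝓑 ∧ ∃ P, Fit Ω P B} with hι
  set PR : ι → MvPolynomial (Fin (0 + 2)) ℝ := fun B => B.2.2.choose with hPR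
  have hPf : ∀ B : ι, Fit Ω (PR B) B.1 := fun B => B.2.2.choose_spec
  have hopen : ∀ B : ι, IsOpen B.1 := fun B =>
    (TopologicalSpace.isBasis_countableBasis (EE 0)).isOpen B.2.1
  -- the field of constants
  set C : Set ℝ := (⋃ B : ι, ((PR B).coeffs : Set ℝ)) ∪ (range (fun j => (g 0).ofLp j) ∪
    range (fun z : Fin (0 + 2) × Fin (0 + 2) =>
      (g.linearIsometryEquiv (EuclideanSpace.single z.1 1)).ofLp z.2)) with hC
  have hCc : C.Countable := (countable_iUnion fun B => (PR B).coeffs.countable_toSet).union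
    ((countable_range _).union (countable_range _))
  set k : Subfield ℝ := Subfield.closure C with hk
  have hkc : Countable k := by
    have h1 := Subfield.cardinalMk_closure_le_max C
    rw [← Cardinal.mk_le_aleph0_iff]
    refine h1.trans ?_
    rw [max_eq_right]
    exact Cardinal.mk_le_aleph0_iff.2 hCc.to_subtype
  have hdesc : ∀ B : ι, ∃ P : MvPolynomial (Fin 2) k, map (algebraMap k ℝ) P = PR B := by
    intro B
    have h1 : PR B ∈ Set.range (map (algebraMap k ℝ) :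
        MvPolynomial (Fin (0 + 2)) k →+* MvPolynomial (Fin (0 + 2)) ℝ) := by
      have h2 := (MvPolynomial.mem_range_map_iff_coeffs_subset (f := algebraMap k ℝ)
        (x := PR B)).2 (by
          intro a ha
          have h3 : a ∈ k := Subfield.subset_closure (Or.inl (mem_iUnion.2 ⟨B, ha⟩))
          exact ⟨⟨a, h3⟩, rfl⟩)
      exact h2
    exact h1
  choose P hPmap using hdesc
  refine ⟨k, hkc, fun j => Subfield.subset_closure (Or.inr (Or.inl ⟨j, rfl⟩)),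
    fun i j => Subfield.subset_closure (Or.inr (Or.inr ⟨(i, j), rfl⟩)), ?_⟩
  rintro q ⟨Q, hQ1, hQ2⟩
  obtain ⟨B, hB, hxB, hsub⟩ :=
    (TopologicalSpace.isBasis_countableBasis (EE 0)).mem_nhds_iff.1 hQ2
  obtain ⟨B', hB'⟩ : ∃ B' : ι, B'.1 = B := ⟨⟨B, hB, Q, hQ1, fun y hy => hsub hy⟩, rfl⟩
  refine ⟨B'.1, P B', hopen B', by rw [hB']; exact hxB, ?_, ?_⟩
  · rw [hPmap]
    exact (hPf B').1
  · intro y hy hfy
    have h1 := (hPf B').2 y hy hfy
    rw [← hPmap, eval_map_aeval] at h1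
    exact h1

/-- the bounce points of an orbit are on the boundary -/
theorem mem_fr {Ω : Set (EE 0)} {g : EE 0 ≃ᵃⁱ[ℝ] EE 0} {n : ℕ} {p u : ℕ → EE 0}
    (h : OrbitMod Ω g n p u) {i : ℕ} (hi : 1 ≤ i) : p i ∈ frontier Ω := by
  obtain ⟨k, rfl⟩ : ∃ k, i = k + 1 := ⟨i - 1, by omega⟩
  obtain ⟨t, -, -, -, F, hF, -, -⟩ := h.step k
  exact ldef_frontier hF

/-- The phase points after `l` bounces of the periodic orbits (modulo `g`), the bounces `1, ..., n - 1`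
of which, with the exception of `j`, are at noncircular algebraic points. -/
def Tb (Ω : Set (EE 0)) (g : EE 0 ≃ᵃⁱ[ℝ] EE 0) (n j l : ℕ) : Set (EE 0 × EE 0) :=
  (fun w : (ℕ → EE 0) × (ℕ → EE 0) => (w.1 l, w.2 l)) ''
    {w | OrbitMod Ω g n w.1 w.2 ∧ ∀ k, 1 ≤ k → k < n → k ≠ j → AlgAt Ω (w.1 k)}

theorem tb_null (h1 : S_CHART) (h2 : S_LOCAL) {Ω : Set (EE 0)} {g : EE 0 ≃ᵃⁱ[ℝ] EE 0}
    (hg : g ⁻¹' Ω = Ω) {n j l : ℕ} (hl : l ≤ n) (hj : 1 ≤ j) (hjn : j < n) :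
    μH[((2 : ℕ) : ℝ)] (Tb Ω g n j l) = 0 := by
  classical
  obtain ⟨k, hkc, k1, k2, k3⟩ := exists_field' Ω g
  apply null_of_locally_null
  rintro ⟨p, u⟩ ⟨hor, hal⟩
  obtain ⟨a, b, C, ha, hb, hCN, hCg, hsp, hCD, hT, hL, hev⟩ := h1 Ω g n p u hg hor
  have hfa : Module.finrank ℝ ((ℝ ∙ a)ᗮ : Submodule ℝ (EE 0)) = 1 := by
    have h1 := Submodule.finrank_add_finrank_orthogonal (ℝ ∙ a)
    rw [finrank_span_singleton ha, finrank_euclideanSpace_fin] at h1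
    omega
  have hfb : Module.finrank ℝ ((ℝ ∙ b)ᗮ : Submodule ℝ (EE 0)) = 1 := by
    have h1 := Submodule.finrank_add_finrank_orthogonal (ℝ ∙ b)
    rw [finrank_span_singleton hb, finrank_euclideanSpace_fin] at h1
    omega
  have hfr : Module.finrank ℝ ((ℝ ∙ a)ᗮ × (ℝ ∙ b)ᗮ) = 2 := by
    rw [Module.finrank_prod, hfa, hfb]
  have hbox : ∀ i, ∃ (B : Set (EE 0)) (P : MvPolynomial (Fin 2) k), 1 ≤ i → i < n → i ≠ j →
      IsOpen B ∧ p i ∈ B ∧ NC (map (algebraMap k ℝ) P) ∧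
        ∀ y ∈ B, y ∈ frontier Ω → aeval y.ofLp P = 0 := by
    intro i
    by_cases hi : 1 ≤ i ∧ i < n ∧ i ≠ j
    · obtain ⟨B, P, hB⟩ := k3 (p i) (hal i hi.1 hi.2.1 hi.2.2)
      exact ⟨B, P, fun _ _ _ => hB⟩
    · exact ⟨∅, 0, fun a b c => absurd ⟨a, b, c⟩ hi⟩
  choose B P hBP using hbox
  obtain ⟨A, hA⟩ : ∃ A, A = {z : (ℝ ∙ a)ᗮ × (ℝ ∙ b)ᗮ | z ∈ C.U ∧
      C.x C.N z = C.g (C.x 0 z) ∧ C.e C.N z = C.G (C.e 0 z) ∧
      C.n C.N z = C.G (C.n 0 z) ∧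
      ∀ i, 1 ≤ i → i < C.N → i ≠ j → aeval (C.x i z).ofLp (P i) = 0} := ⟨_, rfl⟩
  have h0 := h2 ((ℝ ∙ a)ᗮ : Submodule ℝ (EE 0)) ((ℝ ∙ b)ᗮ : Submodule ℝ (EE 0))
    (μH[(Module.finrank ℝ ((ℝ ∙ a)ᗮ × (ℝ ∙ b)ᗮ) : ℝ)]) C k hkc j P hfb hsp
    (fun z hz i hi => hCD z hz i (by rw [← hCN]; exact hi)) (hT j hjn.le) hj
    (by rw [hCN]; exact hjn) (by rw [hCg]; exact k1) (by rw [hCg]; exact k2)
    (fun i hi1 hi hij => (hBP i hi1 (by rw [← hCN]; exact hi) hij).2.2.1)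
  rw [← hA, hfr] at h0
  obtain ⟨K, hK⟩ := hL l hl
  refine ⟨(fun z => (C.x l z, C.e l z)) '' A, ?_, ?_⟩
  · have hK' : LipschitzOnWith K (fun z => (C.x l z, C.e l z)) A :=
      hK.mono fun z hz => by rw [hA] at hz; exact hz.1
    have h3 := hK'.hausdorffMeasure_image_le (d := ((2 : ℕ) : ℝ)) (Nat.cast_nonneg _)
    rw [h0, mul_zero] at h3
    exact nonpos_iff_eq_zero.mp h3
  · have hnear : ∀ᶠ w : (ℕ → EE 0) × (ℕ → EE 0) in 𝓝 (p, u),
        ∀ i ∈ {i : ℕ | i < n}, 1 ≤ i → i ≠ j → w.1 i ∈ B i := by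
      rw [Filter.eventually_all_finite (Set.finite_lt_nat n)]
      intro i hi
      by_cases hc : 1 ≤ i ∧ i ≠ j
      · obtain ⟨hB, hpB, -, -⟩ := hBP i hc.1 hi hc.2
        have hcont : Continuous fun w : (ℕ → EE 0) × (ℕ → EE 0) => w.1 i :=
          (continuous_apply i).comp continuous_fst
        filter_upwards [hcont.continuousAt.eventually_mem (hB.mem_nhds hpB)] with w hw _ _
        exact hw
      · exact Eventually.of_forall fun w a b => absurd ⟨a, b⟩ hc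
    filter_upwards [hev, hnear] with w hw hwB hor'
    obtain ⟨z, hzU, hz, hzn⟩ := hw hor'.1
    refine ⟨z, ?_, ?_⟩
    · rw [hA]
      have hx0 := (hz 0 (Nat.zero_le _)).1
      have he0 := (hz 0 (Nat.zero_le _)).2
      have hxn := (hz n le_rfl).1
      have hen := (hz n le_rfl).2
      have hpn := hor'.1.perp 0
      have hun := hor'.1.peru 0
      rw [zero_add] at hpn hun
      refine ⟨hzU, ?_, ?_, hzn, ?_⟩
      · rw [hCN, hxn, hx0, hCg]
        exact hpn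
      · rw [Chn.G_apply, hCN, hen, he0, hCg]
        exact hun
      · intro i hi1 hi hij
        rw [hCN] at hi
        have hxi := (hz i hi.le).1
        rw [hxi]
        exact (hBP i hi1 hi hij).2.2.2 (w.1 i) (hwB i hi hi1 hij) (mem_fr hor'.1 hi1)
    · have h3 := hz l hl
      exact Prod.ext h3.1 h3.2

theorem glob (h1 : S_CHART) (h2 : S_LOCAL) : S_GLOB := by
  intro Ω Γ hΓ hinv
  have key : μH[((2 : ℕ) : ℝ)] {z : EE 0 × EE 0 | ∃ g ∈ Γ, ∃ (n : ℕ) (p u : ℕ → EE 0),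
      OrbitMod Ω g n p u ∧ (p 0, u 0) = z ∧ ∃ a < n, ∃ b, a < b ∧ b < a + n ∧
        ∀ k, a < k → k < a + n → k ≠ b → AlgAt Ω (p k)} = 0 := by
    refine measure_mono_null (t := ⋃ g ∈ Γ, ⋃ n : ℕ, ⋃ j : ℕ, ⋃ l : ℕ, ⋃ (_ : 1 ≤ j ∧ j < n),
      ⋃ (_ : l ≤ n),
      {z : EE 0 × EE 0 | (g z.1, g.linearIsometryEquiv z.2) ∈ Tb Ω g n j l}) ?_ ?_
    · rintro z ⟨g, hgΓ, n, p, u, hor, rfl, a, han, b, hab, hbn, ha⟩
      refine mem_iUnion₂.2 ⟨g, hgΓ, mem_iUnion.2 ⟨n, mem_iUnion.2 ⟨b - a,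
        mem_iUnion.2 ⟨n - a, mem_iUnion₂.2 ⟨⟨by omega, by omega⟩, Nat.sub_le _ _, ?_⟩⟩⟩⟩⟩
      refine ⟨(fun k => p (k + a), fun k => u (k + a)), ⟨OrbitMod.shift' hor a, ?_⟩, ?_⟩
      · intro k hk1 hk hkj
        exact ha (k + a) (by omega) (by omega) (by omega)
      · simp only
        have h1 : n - a + a = 0 + n := by omega
        rw [h1, hor.perp, hor.peru]
    · refine (measure_biUnion_null_iff hΓ).2 fun g hg => measure_iUnion_null fun n =>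
        measure_iUnion_null fun j => measure_iUnion_null fun l =>
        measure_iUnion_null fun hj => measure_iUnion_null fun hl => ?_
      exact pull g 2 (Tb Ω g n j l) (tb_null h1 h2 (hinv g hg) hl hj.1 hj.2)
  have e2 : ((2 : ℕ) : ℝ) = (2 : ℝ) := by norm_num
  rw [e2] at key
  exact key

end Pool.Agent.Y288.TB
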